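import Pool.Agent.H1.KrD

namespace Pool.Agent.Results.MP_410e25_an.Yes

open MeasureTheory H1.Kr

/-- Every measurable `f ∈ R_A` is a continuous element plus an a.e. vanishing measurable element. -/
theorem result (A : ENNReal) (_hA : 0 < A) (f : ℝ → ℂ) (hf : AEMeasurable f (volume.restrict (I A)))
    (h : InR (I A) f) : ∃ g k : ℝ → ℂ, InR (I A) g ∧ ContinuousOn g (I A) ∧ InR (I A) k ∧
      AEMeasurable k (volume.restrict (I A)) ∧ (∀ᵐ x ∂volume.restrict (I A), k x = 0) ∧
      ∀ x ∈ I A, f x = g x + k x :=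
  split (I_open A) hf h

end Pool.Agent.Results.MP_410e25_an.Yes
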